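import Pool.Agent.L7h32.OS.Stm

/-! Project OS, part SHS: the Chebyshev octic splits into 16 pieces. -/

set_option autoImplicit false

open MvPolynomial

namespace Pool.Agent.L7h96.OS

open Pool.Agent.L7h17.OC Pool.Agent.L7h32.OS

/-- homogeneous Chebyshev polynomial -/
noncomputable def T (x z : ℝ) : ℝ :=
  128 * x ^ 8 - 256 * x ^ 6 * z ^ 2 + 160 * x ^ 4 * z ^ 4 - 32 * x ^ 2 * z ^ 6 + z ^ 8

theorem eval_F {F : MvPolynomial (Fin 3) ℝ} (h : Sep F (cheb (1 / 2)) (cheb 0))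
    (v : Fin 3 → ℝ) : eval v F = T (v 0) (v 2) + T (v 1) (v 2) + (v 2) ^ 8 / 2 := by
  rw [h]
  simp only [Finset.sum_range_succ, Finset.sum_range_zero, cheb, map_add, map_mul, map_pow, eval_C,
    eval_X, T]
  norm_num
  ring

theorem T_lower (x z : ℝ) : -z ^ 8 ≤ T x z := by
  have : T x z + z ^ 8 = 2 * (8 * x ^ 4 - 8 * x ^ 2 * z ^ 2 + z ^ 4) ^ 2 := by
    unfold T
    ring
  nlinarith [sq_nonneg (8 * x ^ 4 - 8 * x ^ 2 * z ^ 2 + z ^ 4)]

theorem T_thr (x z : ℝ) : T x z - z ^ 8 = 32 * x ^ 2 * (x ^ 2 - z ^ 2) * (2 * x ^ 2 - z ^ 2) ^ 2 := by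
  unfold T
  ring

/-- the sign -/
noncomputable def sg (b : Bool) : ℝ := if b then 1 else -1

/-- the four test functions -/
noncomputable def q (v : Fin 3 → ℝ) : Fin 4 → ℝ :=
  ![v 0 * v 2, 2 * v 0 ^ 2 - v 2 ^ 2, v 1 * v 2, 2 * v 1 ^ 2 - v 2 ^ 2]

theorem q_ne {F : MvPolynomial (Fin 3) ℝ} (h : Sep F (cheb (1 / 2)) (cheb 0))
    {v : Fin 3 → ℝ} (hv : v ≠ 0) (hF : eval v F = 0) (j : Fin 4) : q v j ≠ 0 := by
  rw [eval_F h] at hF
  have hz : v 2 ≠ 0 := by
    intro h2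
    rw [h2] at hF
    have h3 : 128 * (v 0) ^ 8 + 128 * (v 1) ^ 8 = 0 := by
      unfold T at hF
      linarith
    have h4 : 0 ≤ (v 0) ^ 8 := by positivity
    have h5 : 0 ≤ (v 1) ^ 8 := by positivity
    have h6 : v 0 = 0 := pow_eq_zero_iff (n := 8) (by norm_num) |>.1 (by linarith)
    have h7 : v 1 = 0 := pow_eq_zero_iff (n := 8) (by norm_num) |>.1 (by linarith)
    apply hv
    funext i
    fin_cases i
    · exact h6
    · exact h7
    · exact h2
  have hz8 : 0 < (v 2) ^ 8 := by positivity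
  have key : ∀ x y : ℝ, T x (v 2) + T y (v 2) + (v 2) ^ 8 / 2 = 0 →
      x * v 2 ≠ 0 ∧ 2 * x ^ 2 - v 2 ^ 2 ≠ 0 := by
    intro x y hxy
    have h1 := T_lower y (v 2)
    have h2 := T_thr x (v 2)
    refine ⟨fun h0 => ?_, fun h0 => ?_⟩
    · rcases mul_eq_zero.1 h0 with h0 | h0
      · rw [h0] at h2
        rw [h0] at hxy
        have h3 : T 0 (v 2) - v 2 ^ 8 = 0 := by
          rw [h2]
          ring
        linarith
      · exact hz h0
    · rw [h0] at h2
      have h3 : T x (v 2) - v 2 ^ 8 = 0 := by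
        rw [h2]
        ring
      linarith
  have h1 := key (v 0) (v 1) hF
  have h2 := key (v 1) (v 0) (by linarith)
  fin_cases j
  · exact h1.1
  · exact h1.2
  · exact h2.1
  · exact h2.2

theorem q_cont (j : Fin 4) : Continuous fun v : Fin 3 → ℝ => q v j := by
  fin_cases j
  · show Continuous fun v : Fin 3 → ℝ => v 0 * v 2
    fun_prop
  · show Continuous fun v : Fin 3 → ℝ => 2 * v 0 ^ 2 - v 2 ^ 2
    fun_prop
  · show Continuous fun v : Fin 3 → ℝ => v 1 * v 2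
    fun_prop
  · show Continuous fun v : Fin 3 → ℝ => 2 * v 1 ^ 2 - v 2 ^ 2
    fun_prop

theorem q_smul (c : ℝ) (v : Fin 3 → ℝ) (j : Fin 4) : q (c • v) j = c ^ 2 * q v j := by
  fin_cases j
  · show c * v 0 * (c * v 2) = c ^ 2 * (v 0 * v 2)
    ring
  · show 2 * (c * v 0) ^ 2 - (c * v 2) ^ 2 = c ^ 2 * (2 * v 0 ^ 2 - v 2 ^ 2)
    ring
  · show c * v 1 * (c * v 2) = c ^ 2 * (v 1 * v 2)
    ring
  · show 2 * (c * v 1) ^ 2 - (c * v 2) ^ 2 = c ^ 2 * (2 * v 1 ^ 2 - v 2 ^ 2)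
    ring

/-- points with given signs -/
theorem point (r : ℝ) (h0 : 0 < r) (h1 : r < 1) (s t : Bool) : ∃ x : ℝ, 0 < sg s * x ∧
    0 < sg t * (2 * x ^ 2 - 1) ∧ (2 * x ^ 2 - 1) ^ 2 = r ^ 2 := by
  have ht : sg t = 1 ∨ sg t = -1 := by
    cases t <;> simp [sg]
  have hs : sg s = 1 ∨ sg s = -1 := by
    cases s <;> simp [sg]
  have hpos : 0 < (1 + sg t * r) / 2 := by
    rcases ht with h | h <;> rw [h] <;> linarith
  have hsq : Real.sqrt ((1 + sg t * r) / 2) ^ 2 = (1 + sg t * r) / 2 := Real.sq_sqrt hpos.le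
  have hsp : 0 < Real.sqrt ((1 + sg t * r) / 2) := Real.sqrt_pos.2 hpos
  have hs2 : sg s * sg s = 1 := by
    rcases hs with h | h <;> rw [h] <;> norm_num
  have ht2 : sg t * sg t = 1 := by
    rcases ht with h | h <;> rw [h] <;> norm_num
  refine ⟨sg s * Real.sqrt ((1 + sg t * r) / 2), ?_, ?_, ?_⟩
  · rw [← mul_assoc, hs2, one_mul]
    exact hsp
  · have : sg t * (2 * (sg s * Real.sqrt ((1 + sg t * r) / 2)) ^ 2 - 1) = r := by
      have e1 : (sg s * Real.sqrt ((1 + sg t * r) / 2)) ^ 2 = (1 + sg t * r) / 2 := by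
        rw [mul_pow, hsq, sq, hs2, one_mul]
      rw [e1]
      linear_combination r * ht2
    rw [this]
    exact h0
  · have e1 : (sg s * Real.sqrt ((1 + sg t * r) / 2)) ^ 2 = (1 + sg t * r) / 2 := by
      rw [mul_pow, hsq, sq, hs2, one_mul]
    rw [e1]
    linear_combination r ^ 2 * ht2

theorem T_one (x : ℝ) : T x 1 = 2 * (2 * (2 * x ^ 2 - 1) ^ 2 - 1) ^ 2 - 1 := by
  unfold T
  ring

/-- **SHS** -/
theorem s_SHS : S_SHS := by
  classical
  intro F hF
  have hcard : Fintype.card (Fin 4 → Bool) = 16 := by simp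
  let e : (Fin 4 → Bool) ≃ Fin 16 := Fintype.equivFinOfCardEq hcard
  let D : (Fin 4 → Bool) → Set (Fin 3 → ℝ) := fun ε =>
    {v | v ≠ 0 ∧ eval v F = 0 ∧ ∀ j, 0 ≤ sg (ε j) * q v j}
  refine ⟨fun i => D (e.symm i), fun i => ?_, fun i i' hii => ?_, ?_, ?_, ?_⟩
  · -- nonempty
    set ε := e.symm i
    have hr1 : (Real.sqrt (1 / 2)) ^ 2 = 1 / 2 := Real.sq_sqrt (by norm_num)
    have h30 : 0 ≤ Real.sqrt 3 := Real.sqrt_nonneg 3
    have h3 : Real.sqrt 3 ^ 2 = 3 := Real.sq_sqrt (by norm_num)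
    have h32 : Real.sqrt 3 < 2 := by nlinarith
    have hr2 : (Real.sqrt ((2 + Real.sqrt 3) / 4)) ^ 2 = (2 + Real.sqrt 3) / 4 :=
      Real.sq_sqrt (by positivity)
    obtain ⟨x, hx1, hx2, hx3⟩ := point (Real.sqrt (1 / 2)) (Real.sqrt_pos.2 (by norm_num))
      (by rw [Real.sqrt_lt' one_pos]; norm_num) (ε 0) (ε 1)
    obtain ⟨y, hy1, hy2, hy3⟩ := point (Real.sqrt ((2 + Real.sqrt 3) / 4))
      (Real.sqrt_pos.2 (by positivity))
      (by rw [Real.sqrt_lt' one_pos]; linarith) (ε 2) (ε 3)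
    rw [hr1] at hx3
    rw [hr2] at hy3
    refine ⟨![x, y, 1], ?_, ?_, ?_⟩
    · intro h
      have := congrFun h 2
      simp at this
    · rw [eval_F hF]
      show T x 1 + T y 1 + (1 : ℝ) ^ 8 / 2 = 0
      rw [T_one, T_one, hx3, hy3]
      nlinarith
    · intro j
      fin_cases j
      · show 0 ≤ sg (ε 0) * (x * 1)
        rw [mul_one]
        exact hx1.le
      · show 0 ≤ sg (ε 1) * (2 * x ^ 2 - 1 ^ 2)
        rw [one_pow]
        exact hx2.le
      · show 0 ≤ sg (ε 2) * (y * 1)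
        rw [mul_one]
        exact hy1.le
      · show 0 ≤ sg (ε 3) * (2 * y ^ 2 - 1 ^ 2)
        rw [one_pow]
        exact hy2.le
  · -- disjoint
    rw [Set.disjoint_left]
    rintro v ⟨hv, hFv, h1⟩ ⟨_, _, h2⟩
    have hne : e.symm i ≠ e.symm i' := fun h => hii (e.symm.injective h)
    obtain ⟨j, hj⟩ := Function.ne_iff.1 hne
    have hq := q_ne hF hv hFv j
    have h1j := h1 j
    have h2j := h2 j
    apply hq
    cases ha : e.symm i j <;> cases hb : e.symm i' j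
    · exact absurd (ha.trans hb.symm) hj
    · rw [ha] at h1j
      rw [hb] at h2j
      simp only [sg, Bool.false_eq_true, if_false, if_true] at h1j h2j
      linarith
    · rw [ha] at h1j
      rw [hb] at h2j
      simp only [sg, Bool.false_eq_true, if_false, if_true] at h1j h2j
      linarith
    · exact absurd (ha.trans hb.symm) hj
  · -- union
    ext v
    simp only [Set.mem_iUnion]
    constructor
    · rintro ⟨i, hv, hFv, -⟩
      exact ⟨hv, hFv⟩
    · rintro ⟨hv, hFv⟩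
      refine ⟨e fun j => decide (0 ≤ q v j), ?_⟩
      rw [e.symm_apply_apply]
      refine ⟨hv, hFv, fun j => ?_⟩
      by_cases h : 0 ≤ q v j
      · simp only [h, decide_true, sg, if_true, one_mul]
      · simp only [h, decide_false, sg, Bool.false_eq_true, if_false]
        push Not at h
        linarith
  · -- scaling
    rintro i v ⟨hv, hFv, h1⟩ c hc
    refine ⟨smul_ne_zero hc hv, ?_, fun j => ?_⟩
    · rw [eval_F hF] at hFv ⊢
      have : T (c * v 0) (c * v 2) + T (c * v 1) (c * v 2) + (c * v 2) ^ 8 / 2 =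
          c ^ 8 * (T (v 0) (v 2) + T (v 1) (v 2) + (v 2) ^ 8 / 2) := by
        unfold T
        ring
      show T (c * v 0) (c * v 2) + T (c * v 1) (c * v 2) + (c * v 2) ^ 8 / 2 = 0
      rw [this, hFv, mul_zero]
    · rw [q_smul]
      have := h1 j
      have h2 : sg (e.symm i j) * (c ^ 2 * q v j) = c ^ 2 * (sg (e.symm i j) * q v j) := by ring
      rw [h2]
      positivity
  · -- closed
    intro i
    refine ⟨{v | eval v F = 0} ∩ ⋂ j, {v | 0 ≤ sg (e.symm i j) * q v j}, ?_, ?_⟩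
    · refine IsClosed.inter (isClosed_eq (MvPolynomial.continuous_eval F) continuous_const) ?_
      exact isClosed_iInter fun j => isClosed_le continuous_const (continuous_const.mul (q_cont j))
    · ext v
      simp only [D, Set.mem_ofPred_eq, Set.mem_inter_iff, Set.mem_iInter]
      tauto

end Pool.Agent.L7h96.OS
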